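import Pool.Agent.W791.T.TriA

/-!
Project T8 (helper84), part TRI: a positive proportion of the triangles has a given sign.
-/

set_option autoImplicit false

namespace Pool.Agent.W791.T.Tri

open Finset
open Pool.Agent.H376R2.MR
open Pool.Agent.W78.GA
open Pool.Agent.W78.EC (Gi cone aix SP Cls)
open Pool.Agent.W84.T
open Pool.Agent.W791.T.TriA

open scoped Classical in
/-- the coarse edges with a triangle whose sign is not `c` -/
noncomputable def EB (Y X : ℝ) (c : ℤ) : Finset (Gi × Gi) :=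
  (edge 0 1 Y).filter (fun e => ∃ x y : ℕ × ℕ, (x.1 : ℤ) * y.2 - x.2 * y.1 = 1 ∧
    (nm (lc e.1 e.2 x + lc e.1 e.2 y) : ℝ) ≤ X ∧ tg (lc e.1 e.2 x, lc e.1 e.2 y) ≠ c)

open scoped Classical in
lemma EB_card (h2 : S_CONE) {Y X : ℝ} (hY : 2 ≤ Y) {c : ℤ} (hc : c = 1 ∨ c = -1) :
    (EB Y X (-c)).card ≤ ((TS X).filter (fun e => tg e = c)).card := by
  obtain ⟨k1, -, k3⟩ := h2 Y X hY
  have hch : ∀ e ∈ EB Y X (-c), ∃ f ∈ (TS X).filter (fun e => tg e = c),
      f.1 + f.2 ∈ cone X e.1 e.2 := by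
    intro e he
    unfold EB at he
    rw [mem_filter] at he
    obtain ⟨he, x, y, hxy, hX, ht⟩ := he
    have hab : dt e.1 e.2 = 1 := by
      unfold edge at he
      simp only [mem_filter] at he
      exact he.2.1
    obtain ⟨t1, t2⟩ := mem_TS hab (k1 e he).1 hxy hX
    refine ⟨(lc e.1 e.2 x, lc e.1 e.2 y), ?_, t2⟩
    rw [mem_filter]
    refine ⟨t1, ?_⟩
    rcases hc with rfl | rfl <;> rcases tg_eq (lc e.1 e.2 x, lc e.1 e.2 y) with h | h
    · exact h
    · exact absurd h ht
    · rw [neg_neg] at ht; exact absurd h ht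
    · exact h
  choose! F hF1 hF2 using hch
  refine card_le_card_of_injOn F (fun e he => hF1 e he) ?_
  intro e he f hf hef
  have he' : e ∈ edge 0 1 Y := by
    have := mem_coe.1 he
    unfold EB at this
    exact (mem_filter.1 this).1
  have hf' : f ∈ edge 0 1 Y := by
    have := mem_coe.1 hf
    unfold EB at this
    exact (mem_filter.1 this).1
  have g1 := hF2 e (mem_coe.1 he)
  have g2 := hF2 f (mem_coe.1 hf)
  rw [← hef] at g2
  exact k3 e he' f hf' _ g1 g2

theorem tri (h1 : S_RIG) (h2 : S_CONE) (h3 : Pool.Agent.W84.T.S_CNT) (h4 : S_ORD) (h5 : S_ARC) (h6 : S_CLS)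
    (h7 : Pool.Agent.W78.EC.S_MRS) : S_TRI := by
  classical
  obtain ⟨c₀, hc₀, X₂, hcls⟩ := h6
  obtain ⟨H, hH, X₁, hmrs⟩ := h7 4 (Pool.Agent.W84.FP.c1 4) (by norm_num) (by norm_num) cls (1 / 8)
    (by norm_num) (by norm_num) (c₀ / 8) (by positivity)
  obtain ⟨C₅, hC₅, harc⟩ := h5
  obtain ⟨C₃, hC₃, hcnt⟩ := h3
  obtain ⟨K, hK⟩ := exists_nat_ge (8 + 96 * C₅ ^ 2 * H / c₀)
  have hq : 0 ≤ 96 * C₅ ^ 2 * H / c₀ := by positivity
  have hK8 : (8 : ℝ) ≤ K := by linarith
  have hKc : 96 * C₅ ^ 2 * H / c₀ ≤ K := by linarith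
  have hK0 : (0 : ℝ) < K := by linarith
  have hH0 : 0 < H := by linarith
  set δ : ℝ := (c₀ / (8 * C₃)) ^ 2 / K with hδ
  have hδ0 : 0 < δ := by positivity
  refine ⟨δ, hδ0, max (max X₁ X₂) (max (4 * H) (2 * K)), ?_⟩
  intro X hX c hc
  have hX1 : X₁ ≤ X := le_trans (le_trans (le_max_left _ _) (le_max_left _ _)) hX
  have hX2 : X₂ ≤ X := le_trans (le_trans (le_max_right _ _) (le_max_left _ _)) hX
  have hX3 : 4 * H ≤ X := le_trans (le_trans (le_max_left _ _) (le_max_right _ _)) hX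
  have hX4 : 2 * K ≤ X := le_trans (le_trans (le_max_right _ _) (le_max_right _ _)) hX
  have hX0 : 0 < X := by linarith
  by_contra hcon
  push Not at hcon
  -- the scales
  set Y : ℝ := X / K with hYdef
  have hY2 : 2 ≤ Y := by
    rw [hYdef, le_div_iff₀ hK0]; linarith
  have hYX : Y ≤ X := by
    rw [hYdef, div_le_iff₀ hK0]; nlinarith
  have hY8 : Y ≤ 1 / 8 * X := by
    rw [hYdef, div_le_iff₀ hK0]; nlinarith
  set n : ℕ := ⌊X / H⌋₊ with hn
  have hn4 : 4 ≤ n := by
    rw [hn]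
    apply Nat.le_floor
    rw [le_div_iff₀ hH0]
    push_cast
    linarith
  have hnH : (n : ℝ) * H ≤ X := by
    have := Nat.floor_le (show 0 ≤ X / H by positivity)
    rw [← hn] at this
    calc (n : ℝ) * H ≤ X / H * H := by gcongr
      _ = X := by field_simp
  have hn0 : (4 : ℝ) ≤ n := by exact_mod_cast hn4
  have hXn : X / n ≤ 2 * H := by
    have h8 : X / H < n + 1 := by rw [hn]; exact Nat.lt_floor_add_one _
    rw [div_lt_iff₀ hH0] at h8
    rw [div_le_iff₀ (by linarith)]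
    nlinarith
  -- the set P
  set P : Finset Gi := (pball 0 1 X).filter
    (fun z => 1 / 8 * X < (nm z : ℝ) ∧ Pool.Agent.W84.FP.c1 4 z) with hP
  have hPc : c₀ * X ≤ (P.card : ℝ) := by
    have := hcls X hX2
    rw [hP]
    convert this using 2
  have hmr := hmrs X hX1 n (by omega) hnH
  -- the sectors with coarse vectors
  set J : Finset ℤ := (pball 0 1 Y).image (aix n) with hJ
  set P1 : Finset Gi := P.filter (fun z => aix n z ∈ J) with hP1
  have hP1c : (P1.card : ℝ) ≤ c₀ / 8 * X := by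
    have hJc : (J.card : ℝ) ≤ 4 * C₅ * Y := by
      have : J.card ≤ (pball 0 1 Y).card := card_image_le
      exact le_trans (by exact_mod_cast this) (pball_card hC₅ harc (by linarith))
    have hsub : P1 ⊆ J.biUnion (fun j => (pball 0 1 X).filter (fun z => aix n z = j)) := by
      intro z hz
      rw [hP1, mem_filter, hP, mem_filter] at hz
      rw [mem_biUnion]
      exact ⟨aix n z, hz.2, mem_filter.2 ⟨hz.1.1, rfl⟩⟩
    have h9 : (P1.card : ℝ) ≤ ∑ j ∈ J, (((pball 0 1 X).filter (fun z => aix n z = j)).card : ℝ) := by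
      have := (card_le_card hsub).trans card_biUnion_le
      exact_mod_cast this
    have h10 : ∑ j ∈ J, (((pball 0 1 X).filter (fun z => aix n z = j)).card : ℝ) ≤
        ∑ _j ∈ J, C₅ * (3 * H) := by
      apply sum_le_sum
      intro j _
      refine (harc X n j (by linarith) (by omega)).trans ?_
      apply mul_le_mul_of_nonneg_left _ hC₅.le
      linarith
    rw [sum_const, nsmul_eq_mul] at h10
    have h11 : (J.card : ℝ) * (C₅ * (3 * H)) ≤ 4 * C₅ * Y * (C₅ * (3 * H)) := by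
      apply mul_le_mul_of_nonneg_right hJc
      positivity
    have h12 : 4 * C₅ * Y * (C₅ * (3 * H)) ≤ c₀ / 8 * X := by
      rw [hYdef]
      rw [div_le_iff₀ hc₀] at hKc
      have h13 : 4 * C₅ * (X / K) * (C₅ * (3 * H)) = (12 * C₅ ^ 2 * H) * X / K := by ring
      rw [h13, div_le_iff₀ hK0]
      nlinarith [mul_le_mul_of_nonneg_right hKc hX0.le]
    linarith
  -- the cones over the bad edges
  set P2 : Finset Gi := P.filter (fun z => ∃ e ∈ EB Y X (-c), z ∈ cone X e.1 e.2) with hP2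
  have hP2c : (P2.card : ℝ) ≤ c₀ / 8 * X := by
    have hEc : ((EB Y X (-c)).card : ℝ) ≤ δ * X := by
      have := EB_card h2 (X := X) hY2 hc
      have h8 : ((EB Y X (-c)).card : ℝ) ≤ (((TS X).filter (fun e => tg e = c)).card : ℝ) := by
        exact_mod_cast this
      refine h8.trans (le_trans (le_of_eq ?_) hcon.le)
      congr
    have hsubE : EB Y X (-c) ⊆ edge 0 1 Y := by
      unfold EB; exact filter_subset _ _
    have h8 := hcnt Y X (EB Y X (-c)) hY2 hYX hsubE
    have hsub : P2 ⊆ (EB Y X (-c)).biUnion (fun e => cone X e.1 e.2) := by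
      intro z hz
      rw [hP2, mem_filter] at hz
      rw [mem_biUnion]
      exact hz.2
    have h9 : (P2.card : ℝ) ≤ ((∑ e ∈ EB Y X (-c), (cone X e.1 e.2).card : ℕ) : ℝ) := by
      exact_mod_cast (card_le_card hsub).trans card_biUnion_le
    have h10 : Real.sqrt (((EB Y X (-c)).card : ℝ) / Y) ≤ c₀ / (8 * C₃) := by
      have h11 : ((EB Y X (-c)).card : ℝ) / Y ≤ (c₀ / (8 * C₃)) ^ 2 := by
        rw [div_le_iff₀ (by linarith)]
        refine hEc.trans (le_of_eq ?_)
        rw [hδ, hYdef]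
        ring
      calc Real.sqrt (((EB Y X (-c)).card : ℝ) / Y) ≤ Real.sqrt ((c₀ / (8 * C₃)) ^ 2) :=
            Real.sqrt_le_sqrt h11
        _ = c₀ / (8 * C₃) := Real.sqrt_sq (by positivity)
    have h12 : C₃ * X * Real.sqrt (((EB Y X (-c)).card : ℝ) / Y) ≤ C₃ * X * (c₀ / (8 * C₃)) := by
      gcongr
    have h13 : C₃ * X * (c₀ / (8 * C₃)) = c₀ / 8 * X := by
      field_simp
    linarith
  -- the good elements
  set G : Finset Gi := (P \ P1) \ P2 with hG
  have hGc : 3 / 4 * c₀ * X ≤ (G.card : ℝ) := by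
    have e1 : P.card ≤ G.card + P1.card + P2.card := by
      have : P ⊆ G ∪ P1 ∪ P2 := by
        intro z hz
        rw [mem_union, mem_union, hG, mem_sdiff, mem_sdiff]
        by_cases q1 : z ∈ P1
        · left; right; exact q1
        · by_cases q2 : z ∈ P2
          · right; exact q2
          · left; left; exact ⟨⟨hz, q1⟩, q2⟩
      refine (card_le_card this).trans ((card_union_le _ _).trans ?_)
      have := card_union_le G P1
      omega
    have e2 : (P.card : ℝ) ≤ G.card + P1.card + P2.card := by exact_mod_cast e1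
    linarith
  obtain ⟨k1, k2, k3⟩ := h2 Y X hY2
  -- all elements of the sector of a good element have the same sign
  have hsame : ∀ z ∈ G, ∀ z' ∈ P, aix n z = aix n z' → gl z' = gl z := by
    intro z hz z' hz' haix
    rw [hG, mem_sdiff, mem_sdiff] at hz
    obtain ⟨⟨hzP, hz1⟩, hz2⟩ := hz
    have hzP' := hzP
    rw [hP, mem_filter, mem_pball hD] at hzP' hz'
    obtain ⟨⟨a1, a2⟩, a3, a4⟩ := hzP'
    obtain ⟨⟨b1, b2⟩, b3, b4⟩ := hz'
    obtain ⟨e, he, hze⟩ := k2 z a1 (by linarith) a2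
    have hnJ : ∀ w ∈ pball 0 1 Y, aix n w ≠ aix n z := by
      intro w hw hww
      apply hz1
      rw [hP1, mem_filter]
      refine ⟨hzP, ?_⟩
      rw [hJ, mem_image]
      exact ⟨w, hw, hww⟩
    have hze' := h4 Y X n e z z' hY2 hYX hn4 he hze b1 b2 haix hnJ
    have hnE : e ∉ EB Y X (-c) := by
      intro hE
      apply hz2
      rw [hP2, mem_filter]
      exact ⟨hzP, e, hE, hze⟩
    have hall : ∀ x y : ℕ × ℕ, (x.1 : ℤ) * y.2 - x.2 * y.1 = 1 →
        (nm (lc e.1 e.2 x + lc e.1 e.2 y) : ℝ) ≤ X → tg (lc e.1 e.2 x, lc e.1 e.2 y) = -c := by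
      intro x y hxy hX'
      by_contra hne
      apply hnE
      unfold EB
      rw [mem_filter]
      exact ⟨he, x, y, hxy, hX', hne⟩
    have hab : dt e.1 e.2 = 1 := by
      have := he
      unfold edge at this
      simp only [mem_filter] at this
      exact this.2.1
    obtain ⟨hip, hcoord⟩ := k1 e he
    obtain ⟨x, y, -, -, q1, q2⟩ := hcoord z hze
    obtain ⟨x', y', -, -, q1', q2'⟩ := hcoord z' hze'
    have hc' : -c = 1 ∨ -c = -1 := by
      rcases hc with rfl | rfl
      · right; rfl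
      · left; norm_num
    exact same_sign h1 hc' hab hip hall ⟨x', y', q1', q2'⟩ ⟨x, y, q1, q2⟩ b2 a2 b4 a4
  -- lower bound for the sum over the sectors
  have hlow : (G.card : ℝ) ≤ ∑ j ∈ range (n + 1), |∑ z ∈ (pball 0 1 X).filter
      (fun z => 1 / 8 * X < (nm z : ℝ) ∧ Pool.Agent.W84.FP.c1 4 z ∧ aix n z = (j : ℤ)),
        (gl z : ℝ)| := by
    have hGs : (G.card : ℝ) ≤ ∑ j ∈ range (n + 1), ((G.filter (fun z => aix n z = (j : ℤ))).card : ℝ) := by
      have hsub : G ⊆ (range (n + 1)).biUnion (fun j => G.filter (fun z => aix n z = (j : ℤ))) := by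
        intro z hz
        obtain ⟨j, hj, hj'⟩ := aix_mem (n := n) (by omega) z
        rw [mem_biUnion]
        exact ⟨j, hj, mem_filter.2 ⟨hz, hj'⟩⟩
      have := (card_le_card hsub).trans card_biUnion_le
      exact_mod_cast this
    refine hGs.trans (sum_le_sum ?_)
    intro j _
    rcases (G.filter (fun z => aix n z = (j : ℤ))).eq_empty_or_nonempty with hem | ⟨z₀, hz₀⟩
    · rw [hem, card_empty, Nat.cast_zero]
      exact abs_nonneg _
    · rw [mem_filter] at hz₀
      obtain ⟨hz₀G, hz₀j⟩ := hz₀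
      set Fj := (pball 0 1 X).filter
        (fun z => 1 / 8 * X < (nm z : ℝ) ∧ Pool.Agent.W84.FP.c1 4 z ∧ aix n z = (j : ℤ)) with hFj
      have hFP : ∀ z ∈ Fj, z ∈ P ∧ aix n z = (j : ℤ) := by
        intro z hz
        rw [hFj, mem_filter] at hz
        refine ⟨?_, hz.2.2.2⟩
        rw [hP, mem_filter]
        exact ⟨hz.1, hz.2.1, hz.2.2.1⟩
      have hsum : ∑ z ∈ Fj, (gl z : ℝ) = ∑ _z ∈ Fj, (gl z₀ : ℝ) := by
        apply sum_congr rfl
        intro z hz
        obtain ⟨q1, q2⟩ := hFP z hz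
        rw [hsame z₀ hz₀G z q1 (by rw [hz₀j, q2])]
      rw [hsum, sum_const, nsmul_eq_mul, abs_mul, Nat.abs_cast]
      have hg : |(gl z₀ : ℝ)| = 1 := by
        rcases gl_eq z₀ with h | h <;> rw [h] <;> norm_num
      rw [hg, mul_one]
      have : (G.filter (fun z => aix n z = (j : ℤ))).card ≤ Fj.card := by
        apply card_le_card
        intro z hz
        rw [mem_filter] at hz
        obtain ⟨q1, q2⟩ := hz
        rw [hG, mem_sdiff, mem_sdiff] at q1
        have q3 := q1.1.1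
        rw [hP, mem_filter] at q3
        rw [hFj, mem_filter]
        exact ⟨q3.1, q3.2.1, q3.2.2, q2⟩
      exact_mod_cast this
  have hfin : (G.card : ℝ) ≤ c₀ / 8 * X := by
    refine hlow.trans (le_trans (le_of_eq ?_) hmr)
    congr
  nlinarith [mul_pos hc₀ hX0]

end Pool.Agent.W791.T.Tri
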