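import Pool.Agent.W84.T.Defs

/-!
Project T8 (helper84): elementary facts for the part TRI.
-/

set_option autoImplicit false

namespace Pool.Agent.W791.T.TriA

open Finset
open Pool.Agent.H376R2.MR
open Pool.Agent.W78.GA
open Pool.Agent.W78.EC (Gi cone aix SP Cls)
open Pool.Agent.W84.T

lemma hD : (0 : ℤ) ^ 2 < 4 * 1 := by norm_num

lemma lc_re (a b : Gi) (x : ℕ × ℕ) : (lc a b x).re = x.1 * a.re + x.2 * b.re := by
  unfold lc
  simp

lemma lc_im (a b : Gi) (x : ℕ × ℕ) : (lc a b x).im = x.1 * a.im + x.2 * b.im := by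
  unfold lc
  simp

lemma lc_add (a b : Gi) (x y : ℕ × ℕ) : lc a b x + lc a b y = lc a b (x.1 + y.1, x.2 + y.2) := by
  unfold lc
  push_cast
  ring

lemma dt_lc (a b : Gi) (x y : ℕ × ℕ) :
    dt (lc a b x) (lc a b y) = ((x.1 : ℤ) * y.2 - x.2 * y.1) * dt a b := by
  unfold dt
  rw [lc_re, lc_re, lc_im, lc_im]
  ring

lemma dt_left (a b : Gi) (x : ℕ × ℕ) : dt a (lc a b x) = x.2 * dt a b := by
  unfold dt
  rw [lc_re, lc_im]
  ring

lemma dt_right (a b : Gi) (x : ℕ × ℕ) : dt (lc a b x) b = x.1 * dt a b := by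
  unfold dt
  rw [lc_re, lc_im]
  ring

lemma nmc (z : Gi) : (nm z : ℤ) = z.re ^ 2 + z.im ^ 2 := by
  rw [nm_cast hD]
  ring

lemma ip_lc (a b : Gi) (x y : ℕ × ℕ) :
    ip (lc a b x) (lc a b y) = x.1 * y.1 * nm a + (x.1 * y.2 + x.2 * y.1) * ip a b
      + x.2 * y.2 * nm b := by
  rw [nmc, nmc]
  unfold ip
  rw [lc_re, lc_re, lc_im, lc_im]
  ring

lemma prim_of_dt {v u : Gi} (h : dt v u = 1) : prim v ∧ prim u := by
  unfold dt at h
  constructor
  · unfold prim
    rw [← Int.isCoprime_iff_gcd_eq_one]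
    exact ⟨u.im, -u.re, by linarith⟩
  · unfold prim
    rw [← Int.isCoprime_iff_gcd_eq_one]
    exact ⟨-v.im, v.re, by linarith⟩

/-- the triangles over a coarse edge -/
lemma mem_TS {X : ℝ} {a b : Gi} (hab : dt a b = 1) (hip : 0 < ip a b) {x y : ℕ × ℕ}
    (hxy : (x.1 : ℤ) * y.2 - x.2 * y.1 = 1) (hX : (nm (lc a b x + lc a b y) : ℝ) ≤ X) :
    (lc a b x, lc a b y) ∈ TS X ∧ (lc a b x + lc a b y) ∈ cone X a b := by
  have h1 : dt (lc a b x) (lc a b y) = 1 := by rw [dt_lc, hxy, hab]; norm_num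
  have hx : 0 < (x.1 : ℤ) * y.2 := by
    have : (0 : ℤ) ≤ (x.2 : ℤ) * y.1 := by positivity
    linarith
  have hx1 : 1 ≤ x.1 := by
    rcases Nat.eq_zero_or_pos x.1 with h | h
    · rw [h] at hx; simp at hx
    · exact h
  have hy2 : 1 ≤ y.2 := by
    rcases Nat.eq_zero_or_pos y.2 with h | h
    · rw [h] at hx; simp at hx
    · exact h
  have h2 : 0 < ip (lc a b x) (lc a b y) := by
    rw [ip_lc]
    have e1 : (0 : ℤ) ≤ (x.1 : ℤ) * y.1 * nm a := by positivity
    have e2 : (0 : ℤ) ≤ (x.2 : ℤ) * y.2 * nm b := by positivity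
    have e3 : (0 : ℤ) ≤ (x.2 : ℤ) * y.1 := by positivity
    have e4 : 0 < ((x.1 : ℤ) * y.2 + x.2 * y.1) * ip a b := by
      apply mul_pos _ hip
      linarith
    linarith
  obtain ⟨p1, p2⟩ := prim_of_dt h1
  have hn : (nm (lc a b x + lc a b y) : ℤ) = nm (lc a b x) + 2 * ip (lc a b x) (lc a b y)
      + nm (lc a b y) := by
    rw [nm_add hD]; ring
  have hn1 : nm (lc a b x) ≤ nm (lc a b x + lc a b y) := by
    have : (0 : ℤ) ≤ nm (lc a b y) := by positivity
    have h3 : (nm (lc a b x) : ℤ) ≤ nm (lc a b x + lc a b y) := by linarith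
    exact_mod_cast h3
  have hn2 : nm (lc a b y) ≤ nm (lc a b x + lc a b y) := by
    have : (0 : ℤ) ≤ nm (lc a b x) := by positivity
    have h3 : (nm (lc a b y) : ℤ) ≤ nm (lc a b x + lc a b y) := by linarith
    exact_mod_cast h3
  constructor
  · unfold TS dedge
    simp only [mem_filter, mem_product, mem_pball hD]
    refine ⟨⟨⟨⟨p1, le_trans (by exact_mod_cast hn1) hX⟩, ⟨p2, le_trans (by exact_mod_cast hn2) hX⟩⟩,
      h1⟩, h2, hX⟩
  · unfold cone
    simp only [mem_filter, mem_pball hD]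
    have hp : prim (lc a b x + lc a b y) := by
      have : dt (lc a b x) (lc a b x + lc a b y) = 1 := by
        refine Eq.trans ?_ h1
        unfold dt
        simp only [QuadraticAlgebra.re_add, QuadraticAlgebra.im_add]
        ring
      exact (prim_of_dt this).2
    refine ⟨⟨hp, hX⟩, ?_, ?_⟩
    · rw [lc_add, dt_left, hab]
      push_cast
      have : (1 : ℤ) ≤ y.2 := by exact_mod_cast hy2
      have : (0 : ℤ) ≤ x.2 := by positivity
      linarith
    · rw [lc_add, dt_right, hab]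
      push_cast
      have : (1 : ℤ) ≤ x.1 := by exact_mod_cast hx1
      have : (0 : ℤ) ≤ y.1 := by positivity
      linarith

lemma c1_iff (z : Gi) : Pool.Agent.W84.FP.c1 4 z ↔ (4 : ℤ) ∣ z.im ∧ (4 : ℤ) ∣ z.re - 1 := by
  unfold Pool.Agent.W84.FP.c1
  constructor
  · rintro ⟨h1, -, h3⟩
    exact ⟨by exact_mod_cast h1, h3⟩
  · rintro ⟨h1, h3⟩
    refine ⟨by exact_mod_cast h1, ?_, h3⟩
    obtain ⟨k, hk⟩ := h3
    exact ⟨1, -k, by push_cast; linarith⟩

lemma cls : Cls 4 (Pool.Agent.W84.FP.c1 4) := by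
  constructor
  · intro z z' h1 h2
    rw [c1_iff, c1_iff]
    push_cast at h1 h2
    constructor
    · rintro ⟨h3, h4⟩
      exact ⟨by omega, by omega⟩
    · rintro ⟨h3, h4⟩
      exact ⟨by omega, by omega⟩
  · intro x z h1 h2
    rw [c1_iff, c1_iff]
    obtain ⟨m, hm⟩ := h2
    have hx : x = 1 + 4 * m := by linarith
    have e1 : ((x : Gi) * z).re = z.re + 4 * (m * z.re) := by
      simp [QuadraticAlgebra.re_mul]
      rw [hx]; ring
    have e2 : ((x : Gi) * z).im = z.im + 4 * (m * z.im) := by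
      simp [QuadraticAlgebra.im_mul]
      rw [hx]; ring
    rw [e1, e2]
    constructor
    · rintro ⟨h3, h4⟩
      exact ⟨by omega, by omega⟩
    · rintro ⟨h3, h4⟩
      exact ⟨by omega, by omega⟩

/-- powers of signs depend on the parity of the exponent only -/
lemma sgn_pow {e : ℤ} (he : e = 1 ∨ e = -1) {x y : ℕ} (h : (2 : ℤ) ∣ (x : ℤ) - y) :
    e ^ x = e ^ y := by
  rcases he with rfl | rfl
  · simp
  · rcases Nat.even_or_odd x with hx | hx
    · have hy : Even y := by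
        rcases Nat.even_or_odd y with hy | hy
        · exact hy
        · exfalso
          obtain ⟨k, hk⟩ := hx
          obtain ⟨l, hl⟩ := hy
          omega
      rw [hx.neg_one_pow, hy.neg_one_pow]
    · have hy : Odd y := by
        rcases Nat.even_or_odd y with hy | hy
        · exfalso
          obtain ⟨k, hk⟩ := hx
          obtain ⟨l, hl⟩ := hy
          omega
        · exact hy
      rw [hx.neg_one_pow, hy.neg_one_pow]

/-- if all triangles over an edge have the same sign, two vectors of the class `1 mod 4` in the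
cone have the same sign -/
lemma same_sign (h1 : S_RIG) {c : ℤ} (hc : c = 1 ∨ c = -1) {X : ℝ} {a b : Gi} (hab : dt a b = 1)
    (hip : 0 < ip a b)
    (hall : ∀ x y : ℕ × ℕ, (x.1 : ℤ) * y.2 - x.2 * y.1 = 1 →
      (nm (lc a b x + lc a b y) : ℝ) ≤ X → tg (lc a b x, lc a b y) = c)
    {z z' : Gi} (hz : ∃ x y : ℕ, Nat.Coprime x y ∧ z = lc a b (x, y))
    (hz' : ∃ x y : ℕ, Nat.Coprime x y ∧ z' = lc a b (x, y))
    (hX : (nm z : ℝ) ≤ X) (hX' : (nm z' : ℝ) ≤ X)
    (h4 : Pool.Agent.W84.FP.c1 4 z) (h4' : Pool.Agent.W84.FP.c1 4 z') : gl z = gl z' := by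
  obtain ⟨x, y, hxy, rfl⟩ := hz
  obtain ⟨x', y', hxy', rfl⟩ := hz'
  have r1 := h1 c X a b hc hab hip hall x y hxy hX
  have r2 := h1 c X a b hc hab hip hall x' y' hxy' hX'
  rw [c1_iff] at h4 h4'
  have d1 : (2 : ℤ) ∣ (x : ℤ) - x' := by
    have e1 := dt_right a b (x, y)
    have e2 := dt_right a b (x', y')
    rw [hab] at e1 e2
    unfold dt at e1 e2
    simp only [mul_one] at e1 e2
    obtain ⟨⟨k1, k2⟩, ⟨k3, k4⟩⟩ := h4
    obtain ⟨⟨l1, l2⟩, ⟨l3, l4⟩⟩ := h4'
    refine ⟨2 * (k3 - l3) * b.im - 2 * (k1 - l1) * b.re, ?_⟩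
    rw [← e1, ← e2, k2, l2]
    have k5 : (lc a b (x, y)).re = 4 * k3 + 1 := by linarith
    have l5 : (lc a b (x', y')).re = 4 * l3 + 1 := by linarith
    rw [k5, l5]
    ring
  have d2 : (2 : ℤ) ∣ (y : ℤ) - y' := by
    have e1 := dt_left a b (x, y)
    have e2 := dt_left a b (x', y')
    rw [hab] at e1 e2
    unfold dt at e1 e2
    simp only [mul_one] at e1 e2
    obtain ⟨⟨k1, k2⟩, ⟨k3, k4⟩⟩ := h4
    obtain ⟨⟨l1, l2⟩, ⟨l3, l4⟩⟩ := h4'
    refine ⟨2 * (k1 - l1) * a.re - 2 * (k3 - l3) * a.im, ?_⟩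
    rw [← e1, ← e2, k2, l2]
    have k5 : (lc a b (x, y)).re = 4 * k3 + 1 := by linarith
    have l5 : (lc a b (x', y')).re = 4 * l3 + 1 := by linarith
    rw [k5, l5]
    ring
  have pm : ∀ w : Gi, c * gl w = 1 ∨ c * gl w = -1 := by
    intro w
    rcases hc with rfl | rfl <;> rcases gl_eq w with h | h <;> rw [h] <;> norm_num
  rw [sgn_pow (pm a) d1, sgn_pow (pm b) d2, ← r2] at r1
  have hc0 : c ≠ 0 := by rcases hc with rfl | rfl <;> norm_num
  exact mul_left_cancel₀ hc0 r1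

lemma tg_eq (e : Gi × Gi) : tg e = 1 ∨ tg e = -1 := by
  unfold tg
  rcases gl_eq e.1 with h | h <;> rcases gl_eq e.2 with h' | h' <;>
    rcases gl_eq (e.1 + e.2) with h'' | h'' <;> rw [h, h', h''] <;> norm_num

/-- the index of the sector -/
lemma aix_mem {n : ℕ} (hn : 1 ≤ n) (z : Gi) : ∃ j ∈ range (n + 1), aix n z = (j : ℤ) := by
  have h1 : -Real.pi < ang z := Complex.neg_pi_lt_arg _
  have h2 : ang z ≤ Real.pi := Complex.arg_le_pi _
  have hpi := Real.pi_pos
  have hn' : (1 : ℝ) ≤ n := by exact_mod_cast hn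
  have h3 : 0 ≤ aix n z := by
    unfold aix
    rw [Int.floor_nonneg]
    apply div_nonneg
    · apply mul_nonneg <;> linarith
    · linarith
  have h4 : aix n z ≤ n := by
    have : (aix n z : ℝ) ≤ n := by
      unfold aix
      refine (Int.floor_le _).trans ?_
      rw [div_le_iff₀ (by linarith)]
      nlinarith
    exact_mod_cast this
  refine ⟨(aix n z).toNat, ?_, ?_⟩
  · rw [mem_range]
    omega
  · rw [Int.toNat_of_nonneg h3]

/-- number of primitive vectors -/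
lemma pball_card {C : ℝ} (hC : 0 < C) (h : ∀ (X : ℝ) (n : ℕ) (j : ℤ), 1 ≤ X → 1 ≤ n →
    (((pball 0 1 X).filter (fun z => aix n z = j)).card : ℝ) ≤ C * (X / n + 1)) {Y : ℝ}
    (hY : 1 ≤ Y) : ((pball 0 1 Y).card : ℝ) ≤ 4 * C * Y := by
  have e0 := h Y 1 0 hY le_rfl
  have e1 := h Y 1 1 hY le_rfl
  have hsub : pball 0 1 Y ⊆ (pball 0 1 Y).filter (fun z => aix 1 z = 0) ∪
      (pball 0 1 Y).filter (fun z => aix 1 z = 1) := by
    intro z hz
    obtain ⟨j, hj, hj'⟩ := aix_mem (n := 1) le_rfl z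
    rw [mem_range] at hj
    rw [mem_union, mem_filter, mem_filter]
    interval_cases j
    · left; exact ⟨hz, by simpa using hj'⟩
    · right; exact ⟨hz, by simpa using hj'⟩
  have h2 : ((pball 0 1 Y).card : ℝ) ≤ ((pball 0 1 Y).filter (fun z => aix 1 z = 0)).card +
      ((pball 0 1 Y).filter (fun z => aix 1 z = 1)).card := by
    exact_mod_cast (card_le_card hsub).trans (card_union_le _ _)
  push_cast at e0 e1
  nlinarith

end Pool.Agent.W791.T.TriA
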